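import Mathlib

/-!
# MP_8c4df5_an : cycles of the heavy-ball method need not be realisable with pattern `ρ`

The counterexample: `K = 5`, `μ = 1`, `L = 2`, `γ = 29/16`, `β = 7/8` (so `0 < β < 1` and
`γ < 2 (1 + β) / L`).  The function `f(x) = x²/2 + max(x,0)²/2 - 1084 x` has the genuine
`5`-cycle `(-242, 918, 570, 164, 1179)`, while no `5`-cycle on any function of `F_{1,2}` has
pattern `ρ`.
-/

namespace Pool.Agent.Results.MP_8c4df5_an.PatternFails

/-- The class `F_{μ,L}` : differentiable, `μ`-strongly convex functions `ℝ → ℝ` whose derivative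
is `L`-Lipschitz. -/
def IsF (μ L : ℝ) (f : ℝ → ℝ) : Prop :=
  Differentiable ℝ f ∧ StrongConvexOn Set.univ μ f ∧
    ∀ x y : ℝ, |deriv f x - deriv f y| ≤ L * |x - y|

/-- `x` is a `K`-cycle of the heavy-ball method with step `γ` and momentum `β` on `f`
(indices modulo `K`, the entries are not all equal). -/
def IsCycle (K : ℕ) (γ β : ℝ) (f : ℝ → ℝ) (x : ZMod K → ℝ) : Prop :=
  (∃ i j, x i ≠ x j) ∧
    ∀ i : ZMod K, x (i + 1) = x i - γ * deriv f (x i) + β * (x i - x (i - 1))

/-- The rank function `ρ` of the problem. -/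
def rho (K j : ℕ) : ℕ :=
  if j = 0 then 0 else if j ≤ K / 2 then 2 * j - 1 else 2 * (K - j)

/-- The cycle has pattern `ρ` : `x_i ≤ x_j` whenever `ρ(i) < ρ(j)`. -/
def HasPattern (K : ℕ) (x : ZMod K → ℝ) : Prop :=
  ∀ i j : ZMod K, rho K i.val < rho K j.val → x i ≤ x j

/-- Strong convexity gives the lower slope bound of the derivative. -/
lemma lower_slope {μ L : ℝ} {f : ℝ → ℝ} (hf : IsF μ L f) {x y : ℝ} (hxy : x ≤ y) :
    μ * (y - x) ≤ deriv f y - deriv f x := by
  obtain ⟨hd, hs, -⟩ := hf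
  have hc : ConvexOn ℝ Set.univ (fun x => f x - μ / 2 * ‖x‖ ^ 2) :=
    strongConvexOn_iff_convex.1 hs
  have he : (fun x : ℝ => f x - μ / 2 * ‖x‖ ^ 2) = fun x => f x - μ / 2 * x ^ 2 := by
    funext x
    rw [Real.norm_eq_abs, sq_abs]
  rw [he] at hc
  have hD : ∀ x : ℝ, HasDerivAt (fun x => f x - μ / 2 * x ^ 2) (deriv f x - μ * x) x := by
    intro x
    have h1 := (hd x).hasDerivAt
    have h2 : HasDerivAt (fun x : ℝ => μ / 2 * x ^ 2) (μ / 2 * (2 * x)) x := by
      simpa using (hasDerivAt_pow 2 x).const_mul (μ / 2)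
    have h3 := h1.sub h2
    have e : deriv f x - μ / 2 * (2 * x) = deriv f x - μ * x := by ring
    rw [e] at h3
    exact h3
  have hm := hc.monotoneOn_deriv (fun x _ => (hD x).differentiableAt)
  have := hm (Set.mem_univ x) (Set.mem_univ y) hxy
  rw [(hD x).deriv, (hD y).deriv] at this
  linarith

lemma upper_slope {μ L : ℝ} {f : ℝ → ℝ} (hf : IsF μ L f) {x y : ℝ} (hxy : x ≤ y) :
    deriv f y - deriv f x ≤ L * (y - x) := by
  have h := hf.2.2 y x
  rw [abs_of_nonneg (sub_nonneg.2 hxy)] at h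
  exact (abs_le.1 h).2

/-- The function carrying the cycle. -/
noncomputable def fex (x : ℝ) : ℝ := x ^ 2 / 2 + (max x 0) ^ 2 / 2 - 1084 * x

lemma hasDerivAt_maxsq (x : ℝ) : HasDerivAt (fun x : ℝ => (max x 0) ^ 2 / 2) (max x 0) x := by
  rcases lt_trichotomy x 0 with h | h | h
  · have h1 : (fun x : ℝ => (max x 0) ^ 2 / 2) =ᶠ[nhds x] fun _ => 0 := by
      filter_upwards [gt_mem_nhds h] with y hy
      rw [max_eq_right (le_of_lt hy)]; norm_num
    rw [max_eq_right h.le]
    exact (hasDerivAt_const x (0 : ℝ)).congr_of_eventuallyEq h1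
  · subst h
    rw [max_self]
    rw [hasDerivAt_iff_isLittleO]
    have : (fun x' : ℝ => (max x' 0) ^ 2 / 2 - (max (0 : ℝ) 0) ^ 2 / 2 - (x' - 0) • (0 : ℝ))
        = fun x' => (max x' 0) ^ 2 / 2 := by
      funext y; simp
    rw [this]
    have hO : (fun x' : ℝ => (max x' 0) ^ 2 / 2) =O[nhds 0] fun x' : ℝ => (x' - 0) ^ 2 := by
      apply Asymptotics.IsBigO.of_bound 1
      filter_upwards with y
      rw [Real.norm_eq_abs, Real.norm_eq_abs, abs_of_nonneg (by positivity),
        abs_of_nonneg (by positivity)]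
      rcases le_total y 0 with hy | hy
      · rw [max_eq_right hy]; nlinarith [sq_nonneg y]
      · rw [max_eq_left hy]; nlinarith [sq_nonneg y]
    refine hO.trans_isLittleO ?_
    have := Asymptotics.isLittleO_pow_sub_sub (0 : ℝ) (show 1 < 2 by norm_num)
    simpa using this
  · have h1 : (fun x : ℝ => (max x 0) ^ 2 / 2) =ᶠ[nhds x] fun x => x ^ 2 / 2 := by
      filter_upwards [lt_mem_nhds h] with y hy
      rw [max_eq_left (le_of_lt hy)]
    rw [max_eq_left h.le]
    have h2 : HasDerivAt (fun x : ℝ => x ^ 2 / 2) x x := by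
      have := (hasDerivAt_pow 2 x).div_const 2
      simpa using this
    exact h2.congr_of_eventuallyEq h1

lemma hasDerivAt_fex (x : ℝ) : HasDerivAt fex (x + max x 0 - 1084) x := by
  have h2 : HasDerivAt (fun x : ℝ => x ^ 2 / 2) x x := by
    have := (hasDerivAt_pow 2 x).div_const 2
    simpa using this
  have h3 : HasDerivAt (fun x : ℝ => 1084 * x) 1084 x := by
    simpa using (hasDerivAt_id x).const_mul (1084 : ℝ)
  exact (h2.add (hasDerivAt_maxsq x)).sub h3

lemma deriv_fex (x : ℝ) : deriv fex x = x + max x 0 - 1084 := (hasDerivAt_fex x).deriv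

lemma isF_fex : IsF 1 2 fex := by
  refine ⟨fun x => (hasDerivAt_fex x).differentiableAt, ?_, ?_⟩
  · rw [strongConvexOn_iff_convex]
    have he : (fun x : ℝ => fex x - 1 / 2 * ‖x‖ ^ 2) =
        fun x => (max x 0) ^ 2 / 2 - 1084 * x := by
      funext x
      rw [Real.norm_eq_abs, sq_abs, fex]
      ring
    rw [he]
    have hD : ∀ x : ℝ, HasDerivAt (fun x : ℝ => (max x 0) ^ 2 / 2 - 1084 * x)
        (max x 0 - 1084) x := by
      intro x
      have h3 : HasDerivAt (fun x : ℝ => 1084 * x) 1084 x := by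
        simpa using (hasDerivAt_id x).const_mul (1084 : ℝ)
      exact (hasDerivAt_maxsq x).sub h3
    apply MonotoneOn.convexOn_of_deriv convex_univ
    · exact fun x _ => (hD x).continuousAt.continuousWithinAt
    · exact fun x _ => (hD x).differentiableAt.differentiableWithinAt
    · intro x _ y _ hxy
      rw [(hD x).deriv, (hD y).deriv]
      have := max_le_max_right (0 : ℝ) hxy
      linarith
  · intro x y
    rw [deriv_fex, deriv_fex]
    have h1 : |max x 0 - max y 0| ≤ |x - y| := abs_max_sub_max_le_abs x y 0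
    calc |x + max x 0 - 1084 - (y + max y 0 - 1084)| = |(x - y) + (max x 0 - max y 0)| := by
          congr 1; ring
      _ ≤ |x - y| + |max x 0 - max y 0| := abs_add_le _ _
      _ ≤ 2 * |x - y| := by linarith

/-- The 5-cycle. -/
def xex : ZMod 5 → ℝ := ![-242, 918, 570, 164, 1179]

lemma isCycle_xex : IsCycle 5 (29 / 16) (7 / 8) fex xex := by
  refine ⟨⟨0, 1, ?_⟩, ?_⟩
  · show (-242 : ℝ) ≠ 918
    norm_num
  · have h0 : xex 0 = -242 := rfl
    have h1 : xex 1 = 918 := rfl
    have h2 : xex 2 = 570 := rfl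
    have h3 : xex 3 = 164 := rfl
    have h4 : xex 4 = 1179 := rfl
    intro i
    rw [deriv_fex]
    fin_cases i
    · show xex 1 = xex 0 - 29 / 16 * (xex 0 + max (xex 0) 0 - 1084) + 7 / 8 * (xex 0 - xex 4)
      rw [h0, h1, h4, max_eq_right (by norm_num)]; norm_num
    · show xex 2 = xex 1 - 29 / 16 * (xex 1 + max (xex 1) 0 - 1084) + 7 / 8 * (xex 1 - xex 0)
      rw [h0, h1, h2, max_eq_left (by norm_num)]; norm_num
    · show xex 3 = xex 2 - 29 / 16 * (xex 2 + max (xex 2) 0 - 1084) + 7 / 8 * (xex 2 - xex 1)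
      rw [h1, h2, h3, max_eq_left (by norm_num)]; norm_num
    · show xex 4 = xex 3 - 29 / 16 * (xex 3 + max (xex 3) 0 - 1084) + 7 / 8 * (xex 3 - xex 2)
      rw [h2, h3, h4, max_eq_left (by norm_num)]; norm_num
    · show xex 0 = xex 4 - 29 / 16 * (xex 4 + max (xex 4) 0 - 1084) + 7 / 8 * (xex 4 - xex 3)
      rw [h3, h4, h0, max_eq_left (by norm_num)]; norm_num

lemma no_pattern (f : ℝ → ℝ) (hf : IsF 1 2 f) (x : ZMod 5 → ℝ)
    (hc : IsCycle 5 (29 / 16) (7 / 8) f x) (hp : HasPattern 5 x) : False := by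
  obtain ⟨⟨i, j, hij⟩, hc⟩ := hc
  have p01 : x 0 ≤ x 1 := hp 0 1 (by decide)
  have p14 : x 1 ≤ x 4 := hp 1 4 (by decide)
  have p42 : x 4 ≤ x 2 := hp 4 2 (by decide)
  have p23 : x 2 ≤ x 3 := hp 2 3 (by decide)
  have e0 : x 1 = x 0 - 29 / 16 * deriv f (x 0) + 7 / 8 * (x 0 - x 4) := hc 0
  have e1 : x 2 = x 1 - 29 / 16 * deriv f (x 1) + 7 / 8 * (x 1 - x 0) := hc 1
  have e2 : x 3 = x 2 - 29 / 16 * deriv f (x 2) + 7 / 8 * (x 2 - x 1) := hc 2
  have e3 : x 4 = x 3 - 29 / 16 * deriv f (x 3) + 7 / 8 * (x 3 - x 2) := hc 3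
  have e4 : x 0 = x 4 - 29 / 16 * deriv f (x 4) + 7 / 8 * (x 4 - x 3) := hc 4
  have l01 := lower_slope hf p01
  have l14 := lower_slope hf p14
  have l42 := lower_slope hf p42
  have l23 := lower_slope hf p23
  have u01 := upper_slope hf p01
  have u14 := upper_slope hf p14
  have u42 := upper_slope hf p42
  have u23 := upper_slope hf p23
  have key : x 3 ≤ x 0 := by
    by_contra hlt
    push Not at hlt
    linarith
  have a1 : x 1 = x 0 := le_antisymm (by linarith) (by linarith)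
  have a2 : x 2 = x 0 := le_antisymm (by linarith) (by linarith)
  have a3 : x 3 = x 0 := le_antisymm (by linarith) (by linarith)
  have a4 : x 4 = x 0 := le_antisymm (by linarith) (by linarith)
  have all : ∀ i : ZMod 5, x i = x 0 := by
    intro i
    fin_cases i
    · rfl
    · exact a1
    · exact a2
    · exact a3
    · exact a4
  exact hij ((all i).trans (all j).symm)

/-- **Q1 is false.**  There are `K ≥ 3`, `0 < μ ≤ L`, `γ > 0` and `β` such that the heavy-ball
method has a `K`-cycle on some function of `F_{μ,L}` but no `K`-cycle with pattern `ρ` on any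
function of `F_{μ,L}`; moreover this happens with `μ < L`, `0 < β < 1` and
`γ < 2 (1 + β) / L`. -/
theorem result :
    ∃ (K : ℕ) (μ L γ β : ℝ), 3 ≤ K ∧ 0 < μ ∧ μ < L ∧ 0 < γ ∧ 0 < β ∧ β < 1 ∧
      γ < 2 * (1 + β) / L ∧
      (∃ f : ℝ → ℝ, IsF μ L f ∧ ∃ x : ZMod K → ℝ, IsCycle K γ β f x) ∧
      ¬ ∃ f : ℝ → ℝ, IsF μ L f ∧ ∃ x : ZMod K → ℝ, IsCycle K γ β f x ∧ HasPattern K x := by
  refine ⟨5, 1, 2, 29 / 16, 7 / 8, by norm_num, by norm_num, by norm_num, by norm_num,
    by norm_num, by norm_num, by norm_num, ⟨fex, isF_fex, xex, isCycle_xex⟩, ?_⟩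
  rintro ⟨f, hf, x, hc, hp⟩
  exact no_pattern f hf x hc hp

end Pool.Agent.Results.MP_8c4df5_an.PatternFails
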